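import Mathlib

set_option autoImplicit false

namespace Pool.Agent.Results.MP_ace2a1_co.NoCooperative

/-- `H` is a chain-structured system: for some cyclic ordering `c` of the vertices every hyperedge
is a nonempty run `c i, c (i+1), ..., c (i+ℓ-1)` of cyclically consecutive vertices. -/
def ChainStructured {V : Type} [Fintype V] [DecidableEq V] (H : Finset (Finset V)) : Prop :=
  ∃ c : ZMod (Fintype.card V) ≃ V, ∀ e ∈ H, ∃ (i : ZMod (Fintype.card V)) (ℓ : ℕ), 1 ≤ ℓ ∧
    e = (Finset.range ℓ).image (fun j : ℕ => c (i + (j : ZMod (Fintype.card V))))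

/-- `H₁` and `H₂` are isomorphic: a bijection of the vertices maps the hyperedge set of `H₁` onto
that of `H₂`. -/
def Isomorphic {V : Type} [DecidableEq V] (H₁ H₂ : Finset (Finset V)) : Prop :=
  ∃ σ : V ≃ V, H₂ = H₁.image (fun e => e.image σ)

/-- `I` is independent in `H`: it contains no hyperedge of `H`. -/
def Independent {V : Type} (H : Finset (Finset V)) (I : Finset V) : Prop :=
  ∀ e ∈ H, ¬ e ⊆ I

/-- First system: cyclic order `0,1,2,3,4,5`. -/
def H1 : Finset (Finset (Fin 6)) := {{0, 1}, {3, 4}, {1, 2, 3}, {4, 5, 0}}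

/-- Second system: cyclic order `0,3,5,1,4,2`. -/
def H2 : Finset (Finset (Fin 6)) := {{0, 3}, {1, 4}, {3, 5, 1}, {4, 2, 0}}

/-- The permutation `0,3,5,1,4,2`. -/
def τ : Fin 6 ≃ Fin 6 where
  toFun := ![0, 3, 5, 1, 4, 2]
  invFun := ![0, 3, 5, 1, 4, 2]
  left_inv := by decide
  right_inv := by decide

theorem result :
    ∃ (V : Type) (_ : Fintype V) (_ : DecidableEq V) (H₁ H₂ : Finset (Finset V)),
      ChainStructured H₁ ∧ ChainStructured H₂ ∧ Isomorphic H₁ H₂ ∧
      (H₁.filter (fun e => e.card = 2)).card = 2 ∧ (H₂.filter (fun e => e.card = 2)).card = 2 ∧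
      (∀ e ∈ H₁, e.card = 2 ∨ 3 ≤ e.card) ∧ (∀ e ∈ H₂, e.card = 2 ∨ 3 ≤ e.card) ∧
      ¬ ∃ A B : Finset V, A ∪ B = Finset.univ ∧ Independent H₁ A ∧ Independent H₂ B := by
  refine ⟨Fin 6, inferInstance, inferInstance, H1, H2, ?_, ?_, ?_, by decide, by decide,
    by decide, by decide, ?_⟩
  · refine ⟨Equiv.refl (Fin 6), ?_⟩
    intro e he
    simp only [H1, Finset.mem_insert, Finset.mem_singleton] at he
    rcases he with rfl | rfl | rfl | rfl
    · exact ⟨(0 : Fin 6), 2, by norm_num, by decide⟩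
    · exact ⟨(3 : Fin 6), 2, by norm_num, by decide⟩
    · exact ⟨(1 : Fin 6), 3, by norm_num, by decide⟩
    · exact ⟨(4 : Fin 6), 3, by norm_num, by decide⟩
  · refine ⟨τ, ?_⟩
    intro e he
    simp only [H2, Finset.mem_insert, Finset.mem_singleton] at he
    rcases he with rfl | rfl | rfl | rfl
    · exact ⟨(0 : Fin 6), 2, by norm_num, by decide⟩
    · exact ⟨(3 : Fin 6), 2, by norm_num, by decide⟩
    · exact ⟨(1 : Fin 6), 3, by norm_num, by decide⟩
    · exact ⟨(4 : Fin 6), 3, by norm_num, by decide⟩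
  · exact ⟨τ, by decide⟩
  · rintro ⟨A, B, hAB, hA, hB⟩
    have key : ∀ A B : Finset (Fin 6), A ∪ B = Finset.univ → (∀ e ∈ H1, ¬ e ⊆ A) →
        ¬ (∀ e ∈ H2, ¬ e ⊆ B) := by
      decide +kernel
    exact key A B hAB hA hB

end Pool.Agent.Results.MP_ace2a1_co.NoCooperative
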